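import Pool.Agent.Q113.XV.Stm

/-!
# Project XV, jobs PUR, TWS, FTG
-/

set_option autoImplicit false

namespace Pool.Agent.Q121.XV

open Finset Pool.Agent.W205.K5 Pool.Agent.Q113.XV Pool.Agent.W890.SF

/-! ## PUR -/

lemma KK_one' : KK 1 = 0 := by
  unfold KK
  norm_num

lemma min_nn {k : ℕ} {w g : ℕ → ℝ} (hk : 1 ≤ k) (h : Sys k w g) :
    0 ≤ min (g 0) (w (k - 1) - (1 - 1 / (k : ℝ))) := by
  have hk0 : (0 : ℝ) < k := by exact_mod_cast hk
  refine le_min (h.gp 0 (Nat.zero_le k)).le ?_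
  have h1 := h.jen (k - 1) (by omega)
  have h2 := h.top (k - 1) (by omega)
  rw [Nat.cast_sub hk, Nat.cast_one] at h1
  have h3 : ((k : ℝ) - 1) / k ≤ w (k - 1) := by
    rw [div_le_iff₀ hk0]
    linarith
  have h4 : ((k : ℝ) - 1) / k = 1 - 1 / k := by field_simp
  linarith

lemma weak {k : ℕ} {w g : ℕ → ℝ} (hk : 1 ≤ k) (h : Sys k w g) {κ κ' X T : ℝ} (hle : κ ≤ κ')
    (hX : X + κ' * min (g 0) (w (k - 1) - (1 - 1 / (k : ℝ))) ≤ T) :
    X + κ * min (g 0) (w (k - 1) - (1 - 1 / (k : ℝ))) ≤ T := by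
  have := mul_le_mul_of_nonneg_right hle (min_nn hk h)
  linarith

/-- the statement of a piece for a given constant, on a range of `g 0` -/
def Pc (k : ℕ) (κ lo hi : ℝ) : Prop := ∀ (w g : ℕ → ℝ), Sys k w g → lo ≤ g 0 →
  g 0 ≤ hi → ∀ ρ : ℝ, 0 < ρ → ρ < 1 → ρ ^ k + (1 - ρ / k) ^ k = 1 →
  1 - ρ ^ k + κ * min (g 0) (w (k - 1) - (1 - 1 / (k : ℝ))) ≤ Th k ρ (fun j => w (k - j))

/-- a range with a gain -/
def Ex (k : ℕ) (lo hi : ℝ) : Prop := ∃ κ : ℝ, 0 < κ ∧ Pc k κ lo hi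

lemma glue {k : ℕ} (hk : 1 ≤ k) {lo mid hi : ℝ} (h1 : Ex k lo mid) (h2 : Ex k mid hi) :
    Ex k lo hi := by
  obtain ⟨κ1, p1, h1⟩ := h1
  obtain ⟨κ2, p2, h2⟩ := h2
  refine ⟨min κ1 κ2, lt_min p1 p2, fun w g h hlo hhi ρ r0 r1 r2 => ?_⟩
  rcases le_total (g 0) mid with c | c
  · exact weak hk h (min_le_left _ _) (h1 w g h hlo c ρ r0 r1 r2)
  · exact weak hk h (min_le_right _ _) (h2 w g h c hhi ρ r0 r1 r2)

lemma fin {k : ℕ} (hk : 1 ≤ k) (h1 : Ex k (KK 1) (KK k)) (h2 : PLASTs k) : PURs k := by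
  obtain ⟨κ1, p1, h1⟩ := h1
  obtain ⟨κ2, p2, h2⟩ := h2
  refine ⟨min κ1 κ2, lt_min p1 p2, fun w g h ρ r0 r1 r2 => ?_⟩
  have h0 : KK 1 ≤ g 0 := by
    rw [KK_one']
    exact (h.gp 0 (Nat.zero_le k)).le
  rcases le_total (g 0) (KK k) with c | c
  · exact weak hk h (min_le_left _ _) (h1 w g h h0 c ρ r0 r1 r2)
  · exact weak hk h (min_le_right _ _) (h2 w g h c ρ r0 r1 r2)

/-- **PUR**. -/
theorem t_PUR : S_PUR := by
  refine ⟨fun p1 p2 pl => ?_, fun p1 p2 p3 pl => ?_, fun p1 p2 p3 p4 pl => ?_⟩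
  · exact fin (by norm_num) (glue (by norm_num) p1 p2) pl
  · exact fin (by norm_num) (glue (by norm_num) (glue (by norm_num) p1 p2) p3) pl
  · exact fin (by norm_num) (glue (by norm_num) (glue (by norm_num) (glue (by norm_num) p1 p2) p3)
      p4) pl

/-! ## TWS -/

lemma Wt_nn {ι : Type} [DecidableEq ι] {q : ι → ℝ} {S ω : Finset ι} (hω : ω ⊆ S)
    (hq : ∀ i ∈ S, 0 ≤ q i ∧ q i ≤ 1) : 0 ≤ Wt q S ω := by
  unfold Wt
  refine mul_nonneg (Finset.prod_nonneg fun i hi => (hq i (hω hi)).1)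
    (Finset.prod_nonneg fun i hi => ?_)
  have := (hq i (Finset.mem_sdiff.1 hi).1).2
  linarith

lemma PG_zero {ι : Type} [DecidableEq ι] {b q : ι → ℝ} {c : ℝ} {S : Finset ι}
    (hq : ∀ i ∈ S, 0 ≤ q i ∧ q i ≤ 1) (h : PU b q c S = 0) : PG b q c S = 0 := by
  unfold PU at h
  unfold PG
  have h1 := (Finset.sum_eq_zero_iff_of_nonneg (fun ω hω => by
    split_ifs
    · exact Wt_nn (Finset.mem_powerset.1 hω) hq
    · exact le_rfl)).1 h
  refine Finset.sum_eq_zero fun ω hω => ?_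
  have h2 := h1 ω hω
  split_ifs with hc
  · rw [if_pos hc] at h2
    rw [h2, zero_mul]
  · rfl

/-- **TWS**. -/
theorem t_TWS (hS : S_SYS) : S_TWS := by
  intro k hk ⟨κ, hκ, hP⟩
  refine ⟨κ, hκ, fun a b q hTD ρ h0 h1 hρ => ?_⟩
  rcases hS k hk a b q hTD with hsys | ⟨hw0, hw1⟩
  · have h := hP _ _ hsys ρ h0 h1 hρ
    have e1 : k - (k - 1) = 1 := by omega
    simp only [Nat.sub_zero, e1] at h
    refine h.trans (le_of_eq ?_)
    unfold Th
    apply sum_congr rfl
    intro j hj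
    rw [mem_range] at hj
    have h2 : k - (k - j) = j := by omega
    simp only [h2]
  · have hT : Th k ρ (Wn a b q) = 1 - ρ ^ k := by
      unfold Th
      rw [sum_range_succ, hw0, mul_zero, add_zero]
      have h2 : ∑ j ∈ range k, (k.choose j : ℝ) * (1 - ρ) ^ (k - j) * ρ ^ j * Wn a b q j =
          ∑ j ∈ range k, ρ ^ j * (1 - ρ) ^ (k - j) * (k.choose j : ℝ) := by
        apply sum_congr rfl
        intro j hj
        rw [mem_range] at hj
        rw [hw1 j hj]; ring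
      rw [h2]
      have h3 := add_pow ρ (1 - ρ) k
      rw [show ρ + (1 - ρ) = 1 by ring, one_pow, sum_range_succ, Nat.sub_self, pow_zero, mul_one,
        Nat.choose_self, Nat.cast_one, mul_one] at h3
      linarith
    have hG : Gn a b q k = 0 := by
      unfold Gn
      refine PG_zero (fun i _ => ?_) ?_
      · have := hTD i i.2
        exact ⟨this.2.2.1, this.2.2.2.1.le⟩
      · exact hw0
    have hm : min (k * Gn a b q k) (Wn a b q 1 - (1 - 1 / (k : ℝ))) ≤ 0 := by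
      rw [hG, mul_zero]
      exact min_le_left _ _
    have := mul_nonpos_of_nonneg_of_nonpos hκ.le hm
    linarith

/-! ## FTG -/

lemma Wt_insert_of_notMem {ι : Type} [DecidableEq ι] {q : ι → ℝ} {S ω : Finset ι} {a : ι}
    (ha : a ∉ S) (hω : ω ⊆ S) : Wt q (insert a S) ω = (1 - q a) * Wt q S ω := by
  unfold Wt
  have h1 : insert a S \ ω = insert a (S \ ω) :=
    Finset.insert_sdiff_of_notMem _ (fun h => ha (hω h))
  rw [h1, Finset.prod_insert (fun h => ha (Finset.mem_sdiff.1 h).1)]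
  ring

lemma Wt_insert_insert {ι : Type} [DecidableEq ι] {q : ι → ℝ} {S ω : Finset ι} {a : ι}
    (ha : a ∉ S) (hω : ω ⊆ S) : Wt q (insert a S) (insert a ω) = q a * Wt q S ω := by
  unfold Wt
  have h1 : insert a S \ insert a ω = S \ ω := by
    rw [Finset.insert_sdiff_insert]
    exact Finset.sdiff_insert_of_notMem ha _
  rw [h1, Finset.prod_insert (fun h => ha (hω h))]
  ring

lemma mean {ι : Type} [DecidableEq ι] (b q : ι → ℝ) (S : Finset ι) : ∀ c : ℝ,
    ∑ ω ∈ S.powerset, Wt q S ω * (c - ∑ i ∈ ω, b i) = c - ∑ i ∈ S, b i * q i := by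
  induction S using Finset.induction_on with
  | empty =>
    intro c
    simp [Wt]
  | insert a S ha ih =>
    intro c
    rw [Finset.sum_powerset_insert ha, Finset.sum_insert ha]
    have e1 : ∑ ω ∈ S.powerset, Wt q (insert a S) ω * (c - ∑ i ∈ ω, b i) =
        (1 - q a) * ∑ ω ∈ S.powerset, Wt q S ω * (c - ∑ i ∈ ω, b i) := by
      rw [Finset.mul_sum]
      refine Finset.sum_congr rfl fun ω hω => ?_
      rw [Wt_insert_of_notMem ha (Finset.mem_powerset.1 hω)]
      ring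
    have e2 : ∑ ω ∈ S.powerset, Wt q (insert a S) (insert a ω) *
        (c - ∑ i ∈ insert a ω, b i) =
        q a * ∑ ω ∈ S.powerset, Wt q S ω * ((c - b a) - ∑ i ∈ ω, b i) := by
      rw [Finset.mul_sum]
      refine Finset.sum_congr rfl fun ω hω => ?_
      have hω' := Finset.mem_powerset.1 hω
      rw [Wt_insert_insert ha hω', Finset.sum_insert (fun h => ha (hω' h))]
      ring
    rw [e1, e2, ih c, ih (c - b a)]
    ring

/-- **FTG**. -/
theorem t_FTG : S_FTG := by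
  intro k hk a b q hTD i0 hi0
  have hk0 : (0 : ℝ) < k := by
    have : 0 < k := by omega
    exact_mod_cast this
  obtain ⟨i, hi⟩ : ∃ i : Fin k, (i : ℕ) = i0 := ⟨⟨i0, hi0⟩, rfl⟩
  rw [← hi]
  unfold Gn
  obtain ⟨c, hc⟩ : ∃ c : ℝ, c = 1 - ∑ i : Fin k, a i := ⟨_, rfl⟩
  rw [← hc]
  have hq : ∀ j ∈ (univ : Finset (Fin k)), 0 ≤ q j ∧ q j ≤ 1 := fun j _ => by
    have := hTD j j.2
    exact ⟨this.2.2.1, this.2.2.2.1.le⟩
  have hins : insert i (univ.erase i : Finset (Fin k)) = univ :=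
    Finset.insert_erase (Finset.mem_univ i)
  have hnot : i ∉ (univ.erase i : Finset (Fin k)) := Finset.notMem_erase i _
  have h1 : (1 - q i) * (c - ∑ j ∈ univ.erase i, b (j : ℕ) * q (j : ℕ)) ≤
      PG (fun i : Fin k => b i) (fun i : Fin k => q i) c univ := by
    rw [← mean (fun i : Fin k => b i) (fun i : Fin k => q i) (univ.erase i) c, Finset.mul_sum]
    have h2 : PG (fun i : Fin k => b i) (fun i : Fin k => q i) c univ =
        PG (fun i : Fin k => b i) (fun i : Fin k => q i) c (insert i (univ.erase i)) := by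
      rw [hins]
    rw [h2]
    unfold PG
    rw [Finset.sum_powerset_insert hnot]
    have hqe : ∀ j ∈ insert i (univ.erase i : Finset (Fin k)), 0 ≤ q j ∧ q j ≤ 1 := fun j _ =>
      hq j (Finset.mem_univ j)
    have h3 : 0 ≤ ∑ ω ∈ (univ.erase i : Finset (Fin k)).powerset,
        (if ∑ j ∈ insert i ω, b (j : ℕ) < c then
          Wt (fun i : Fin k => q i) (insert i (univ.erase i)) (insert i ω) *
            (c - ∑ j ∈ insert i ω, b (j : ℕ)) else 0) := by
      refine Finset.sum_nonneg fun ω hω => ?_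
      split_ifs with hlt
      · refine mul_nonneg (Wt_nn (Finset.insert_subset_insert _ (Finset.mem_powerset.1 hω)) hqe) ?_
        linarith
      · exact le_rfl
    have h4 : ∑ ω ∈ (univ.erase i : Finset (Fin k)).powerset,
        (1 - q i) * (Wt (fun i : Fin k => q i) (univ.erase i) ω * (c - ∑ j ∈ ω, b (j : ℕ))) ≤
        ∑ ω ∈ (univ.erase i : Finset (Fin k)).powerset,
        (if ∑ j ∈ ω, b (j : ℕ) < c then
          Wt (fun i : Fin k => q i) (insert i (univ.erase i)) ω *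
            (c - ∑ j ∈ ω, b (j : ℕ)) else 0) := by
      refine Finset.sum_le_sum fun ω hω => ?_
      have hω' := Finset.mem_powerset.1 hω
      have e1 : (1 - q i) * (Wt (fun i : Fin k => q i) (univ.erase i) ω *
          (c - ∑ j ∈ ω, b (j : ℕ))) =
          Wt (fun i : Fin k => q i) (insert i (univ.erase i)) ω * (c - ∑ j ∈ ω, b (j : ℕ)) := by
        rw [Wt_insert_of_notMem hnot hω']
        ring
      rw [e1]
      have hW : 0 ≤ Wt (fun i : Fin k => q i) (insert i (univ.erase i)) ω :=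
        Wt_nn (hω'.trans (Finset.subset_insert _ _)) hqe
      split_ifs with hlt
      · exact le_rfl
      · exact mul_nonpos_of_nonneg_of_nonpos hW (by linarith)
    linarith
  have h5 : c - ∑ j ∈ univ.erase i, b (j : ℕ) * q (j : ℕ) = b i * q i := by
    have e1 : ∑ j : Fin k, (a j + b (j : ℕ) * q (j : ℕ)) = 1 := by
      have : ∀ j ∈ (univ : Finset (Fin k)), a j + b (j : ℕ) * q (j : ℕ) = 1 / (k : ℝ) :=
        fun j _ => (hTD j j.2).2.2.2.2
      rw [Finset.sum_congr rfl this, Finset.sum_const, Finset.card_univ, Fintype.card_fin,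
        nsmul_eq_mul]
      field_simp
    rw [Finset.sum_add_distrib] at e1
    have e2 := Finset.add_sum_erase (univ : Finset (Fin k)) (fun j : Fin k => b (j : ℕ) * q (j : ℕ))
      (Finset.mem_univ i)
    linarith
  rw [h5] at h1
  calc q i * (1 - q i) * b i = (1 - q i) * (b i * q i) := by ring
    _ ≤ _ := h1

end Pool.Agent.Q121.XV
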