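import Pool.Agent.Q113.XV.Stm

/-!
# Project XV, jobs WSX and XAX: the window statement and the exact matching theorem
-/

set_option autoImplicit false

namespace Pool.Agent.Q121.XV

open Finset Pool.Agent.Q54.EM Pool.Agent.Q113.XM Pool.Agent.Q113.XU Pool.Agent.Q113.XV
  Pool.Agent.W890.SF Pool.Agent.W593.IR

/-- **WSX**. -/
theorem t_WSX : S_CRF → S_SFN → S_CLQ → S_WSX := by
  intro hCRF hSFN hCLQ k hk hW c hc
  obtain ⟨hc0, hc1, -⟩ := id hc
  have h2c := (hCRF k (by omega) c hc).2.2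
  have hk0 : (0 : ℝ) < k := by
    have : 0 < k := by omega
    exact_mod_cast this
  -- a smaller density
  obtain ⟨c', hc'0, hc'c, hc'2⟩ : ∃ c' : ℝ, 0 < c' ∧ c' < c ∧ 1 < 2 * ((k : ℝ) * c') ^ (k - 1) := by
    have hcont : Continuous fun x : ℝ => 2 * ((k : ℝ) * x) ^ (k - 1) := by fun_prop
    have h1 : ∀ᶠ x : ℝ in nhds c, 1 < 2 * ((k : ℝ) * x) ^ (k - 1) :=
      (hcont.tendsto c).eventually (lt_mem_nhds h2c)
    have h2 : ∀ᶠ x : ℝ in nhds c, 0 < x := lt_mem_nhds hc0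
    obtain ⟨δ, hδ, hb⟩ := Metric.eventually_nhds_iff.1 (h1.and h2)
    have h3 := @hb (c - δ / 2) (by
      rw [Real.dist_eq, show c - δ / 2 - c = -(δ / 2) by ring, abs_neg, abs_of_pos (by positivity)]
      linarith)
    exact ⟨c - δ / 2, h3.2, by linarith, h3.1⟩
  obtain ⟨ξ, hξ⟩ : ∃ ξ : ℝ, ξ = (1 - k * c) / 2 := ⟨_, rfl⟩
  have hξ0 : 0 < ξ := by rw [hξ]; linarith
  obtain ⟨γ1, hγ1, n1, hS⟩ := hSFN k (by omega) ξ hξ0
  obtain ⟨γ2, hγ2, n2, hQ⟩ := hCLQ k hk c' hc'0 hc'2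
  obtain ⟨ε, hε, n3, hWS⟩ := hW c hc (min γ1 γ2) (lt_min hγ1 hγ2)
  obtain ⟨ε', hε'⟩ : ∃ ε' : ℝ, ε' = min ε (min (c - c') (ξ / (2 * k))) := ⟨_, rfl⟩
  have hε'0 : 0 < ε' := by
    rw [hε']
    exact lt_min hε (lt_min (by linarith) (by positivity))
  have hle1 : ε' ≤ ε := by rw [hε']; exact min_le_left _ _
  have hle2 : ε' ≤ c - c' := by
    rw [hε']; exact (min_le_right _ _).trans (min_le_left _ _)
  have hle3 : k * ε' ≤ ξ / 2 := by
    have : ε' ≤ ξ / (2 * k) := by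
      rw [hε']; exact (min_le_right _ _).trans (min_le_right _ _)
    rw [le_div_iff₀ (by positivity)] at this
    linarith
  obtain ⟨n4, hn4⟩ := exists_nat_ge (2 * k / ξ)
  refine ⟨ε', hε'0, max (max n1 n2) (max n3 n4), fun n hn s hs hks F hF hmax => ?_⟩
  have g1 : n1 ≤ n := (le_max_left _ _).trans ((le_max_left _ _).trans hn)
  have g2 : n2 ≤ n := (le_max_right _ _).trans ((le_max_left _ _).trans hn)
  have g3 : n3 ≤ n := (le_max_left _ _).trans ((le_max_right _ _).trans hn)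
  have g4 : n4 ≤ n := (le_max_right _ _).trans ((le_max_right _ _).trans hn)
  have hn0 : (0 : ℝ) ≤ n := Nat.cast_nonneg n
  by_contra hno
  have habs := abs_le.1 hs
  rcases hWS n g3 F hF s (hs.trans (mul_le_mul_of_nonneg_right hle1 hn0)) hks hno hmax.le with
    h | ⟨T, hT1, hT2⟩
  · refine hno (hS n g1 F hF s ?_ ?_ (lt_of_le_of_lt (le_max_left _ _) hmax))
    · -- `k (s+1) ≤ (1-ξ) n`
      have h4 : 2 * (k : ℝ) / ξ ≤ n := hn4.trans (by exact_mod_cast g4)
      rw [div_le_iff₀ hξ0] at h4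
      have h5 : (s : ℝ) ≤ (c + ε') * n := by linarith [habs.2]
      have h6 : (k : ℝ) * s ≤ k * ((c + ε') * n) := mul_le_mul_of_nonneg_left h5 hk0.le
      have h7 : (k : ℝ) * ((c + ε') * n) = (k * c) * n + (k * ε') * n := by ring
      have h8 : (k * ε') * n ≤ ξ / 2 * n := mul_le_mul_of_nonneg_right hle3 hn0
      have h9 : (k : ℝ) * c = 1 - 2 * ξ := by rw [hξ]; ring
      rw [h7, h9] at h6
      nlinarith
    · have h1 : (s : ℝ) - γ1 * n ≤ s - min γ1 γ2 * n := by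
        have := mul_le_mul_of_nonneg_right (min_le_left γ1 γ2) hn0
        linarith
      refine h1.trans (h.trans ?_)
      have hsub : (univ.filter (fun v : Fin n =>
          (1 - min γ1 γ2) * (((n - 1).choose (k - 1) : ℕ) : ℝ) ≤ (dg F v : ℝ))) ⊆
          univ.filter (fun v : Fin n =>
          (1 - γ1) * (((n - 1).choose (k - 1) : ℕ) : ℝ) ≤ (dg F v : ℝ)) := by
        intro v hv
        rw [Finset.mem_filter] at hv ⊢
        refine ⟨hv.1, le_trans ?_ hv.2⟩
        refine mul_le_mul_of_nonneg_right ?_ (Nat.cast_nonneg _)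
        linarith [min_le_left γ1 γ2]
      exact_mod_cast Finset.card_le_card hsub
  · refine hno (hQ n g2 F hF s T ?_ hks ?_ (fun v hv => (hT2 v hv).trans ?_)
      (lt_of_le_of_lt (le_max_right _ _) hmax))
    · have h5 : (c - ε') * n ≤ (s : ℝ) := by linarith [habs.1]
      refine le_trans (mul_le_mul_of_nonneg_right (by linarith) hn0) h5
    · refine le_trans ?_ hT1
      have := mul_le_mul_of_nonneg_right (min_le_right γ1 γ2) hn0
      linarith
    · exact mul_le_mul_of_nonneg_right (min_le_right _ _) (by positivity)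

/-- **XAX**. -/
theorem t_XAX : S_CRU → S_XMC → S_XAX := by
  intro hCRU hXMC k hk hLMW hW
  obtain ⟨c, hc, -⟩ := hCRU k (by omega)
  obtain ⟨ε, hε, n1, h1⟩ := hW c hc
  obtain ⟨n2, h2⟩ := hXMC k hk hLMW c hc ε hε
  refine ⟨max n1 n2, fun n hn s hs F hF hmax => ?_⟩
  rcases le_total (|(s : ℝ) - c * n|) (ε * n) with h | h
  · exact h1 n ((le_max_left _ _).trans hn) s h hs F hF hmax
  · exact h2 n ((le_max_right _ _).trans hn) s hs h F hF hmax

end Pool.Agent.Q121.XV
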